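import Mathlib
import Pool.Agent.N388.EFW.Fam

set_option autoImplicit false

/-!
# Families on the boundary `d = m₁ + m₂ + m₃` with blocks of `M + 2` points

Let `k + r M = 9`, `M, r ≥ 1`, `b ≤ M + 1` and `s = √(M² + 2 M)`. The linear system of plane curves of
degree `3 D` with `k` general points of multiplicity `D`, `r b` general points of multiplicity `m + 1` and
`r (M + 2 - b)` general points of multiplicity `m` has the expected dimension if
* `(M + s) D - (M + 2 + s) m < 2 b`, or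
* `(M + s) D - (M + 2 + s) m < 2 b + (s - M)`,
  `(M + s) D - (M + 2 + s) m < 2 b + 2 (M + 1 - b) (M + 1 - s)` and `(M, b, D, m) ≠ (1, 1, 6, 3)`, or
* `(M + 2) (2 m + 1) + 2 b ≤ s (2 D + 1)`.

If the virtual number of sections is nonnegative, then the same multiplicities are non-special in all
degrees `d ≥ 3 D`, otherwise the systems of degree `d ≤ 3 D` are empty.
-/

namespace Pool.Agent.Results.MP_d3128a_ag.BoundaryFamiliesSharper

theorem result (M r k b : ℕ) (hM : 1 ≤ M) (hr : 1 ≤ r) (hk : k + r * M = 9) (hb : b ≤ M + 1)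
    (D m : ℕ)
    (h : ((M + √((M : ℝ) ^ 2 + 2 * M)) * D - (M + 2 + √((M : ℝ) ^ 2 + 2 * M)) * m < 2 * b) ∨
      ((M + √((M : ℝ) ^ 2 + 2 * M)) * D - (M + 2 + √((M : ℝ) ^ 2 + 2 * M)) * m <
          2 * b + (√((M : ℝ) ^ 2 + 2 * M) - M) ∧
        (M + √((M : ℝ) ^ 2 + 2 * M)) * D - (M + 2 + √((M : ℝ) ^ 2 + 2 * M)) * m <
          2 * b + 2 * ((M : ℝ) + 1 - b) * (M + 1 - √((M : ℝ) ^ 2 + 2 * M)) ∧
        ¬ (M = 1 ∧ b = 1 ∧ D = 6 ∧ m = 3)) ∨
      ((M : ℝ) + 2) * (2 * m + 1) + 2 * b ≤ √((M : ℝ) ^ 2 + 2 * M) * (2 * D + 1)) :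
    ∃ F : MvPolynomial (Fin (k + r * (M + 2)) × Fin 2) ℂ, F ≠ 0 ∧
      ∀ P : Fin (k + r * (M + 2)) → Fin 2 → ℂ,
        MvPolynomial.eval (fun ij : Fin (k + r * (M + 2)) × Fin 2 => P ij.1 ij.2) F ≠ 0 →
        ∀ d : ℕ,
          (d = 3 * D ∨
            (d ≤ 3 * D ∧ Nat.choose (3 * D + 2) 2 ≤ k * Nat.choose (D + 1) 2 +
              r * b * Nat.choose (m + 2) 2 + r * (M + 2 - b) * Nat.choose (m + 1) 2) ∨
            (3 * D ≤ d ∧ k * Nat.choose (D + 1) 2 + r * b * Nat.choose (m + 2) 2 +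
              r * (M + 2 - b) * Nat.choose (m + 1) 2 ≤ Nat.choose (3 * D + 2) 2)) →
          Module.finrank ℂ
            ↥(MvPolynomial.homogeneousSubmodule (Fin 3) ℂ d ⊓
              Submodule.restrictScalars ℂ
                (⨅ i : Fin (k + r * (M + 2)),
                  (Ideal.span
                    ({MvPolynomial.X 0 - MvPolynomial.C (P i 0) * MvPolynomial.X 2,
                      MvPolynomial.X 1 - MvPolynomial.C (P i 1) * MvPolynomial.X 2} :
                      Set (MvPolynomial (Fin 3) ℂ))) ^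
                    (if (i : ℕ) < k then D else if (i : ℕ) < k + r * b then m + 1 else m)))
          = Nat.choose (d + 2) 2 - (k * Nat.choose (D + 1) 2 + r * b * Nat.choose (m + 2) 2 +
              r * (M + 2 - b) * Nat.choose (m + 1) 2) := by
  have hG : N388.EFW.Good M b D m := by
    apply N388.EFW.good_of
    rcases h with h | ⟨h, h1, h2⟩ | h
    · exact Or.inl h
    · exact Or.inr (Or.inl ⟨h, h1, fun h3 => h2 ⟨h3.1, h3.2.1, h3.2.2.2, h3.2.2.1⟩⟩)
    · exact Or.inr (Or.inr h)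
  have hrb : r * b ≤ r * (M + 2) := Nat.mul_le_mul_left _ (by omega)
  have hab : k + r * b ≤ k + r * (M + 2) := by omega
  obtain ⟨F, hF, hF'⟩ := TH864.DP.expDim_fam (N388.EFW.joint3 hM hr hk hb hG)
  refine ⟨F.map (algebraMap ℚ ℂ), H932R3.map_ne_zero_of hF, fun P hP d hd => ?_⟩
  rw [MvPolynomial.eval_map] at hP
  have hS := TH864.DP.sum_wt3 hab D m
  have e : k + r * (M + 2) - k - r * b = r * (M + 2 - b) := by
    rw [Nat.mul_sub]; omega
  rw [e] at hS
  have h1 := hF' P hP d (by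
    rw [hS]
    rcases hd with rfl | hd | hd
    · rcases le_total (Nat.choose (3 * D + 2) 2) (k * Nat.choose (D + 1) 2 +
        r * b * Nat.choose (m + 2) 2 + r * (M + 2 - b) * Nat.choose (m + 1) 2) with h2 | h2
      · exact Or.inl ⟨le_rfl, h2⟩
      · exact Or.inr ⟨le_rfl, h2⟩
    · exact Or.inl hd
    · exact Or.inr hd)
  unfold H932R3.ExpDim at h1
  rw [hS] at h1
  exact h1

end Pool.Agent.Results.MP_d3128a_ag.BoundaryFamiliesSharper
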