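import Mathlib
import Pool.Agent.N108.ZZ.FinR

set_option autoImplicit false

/-!
# Non-speciality for `d ≥ m₁ + m₂ + m₃` when `m₁ + ⋯ + m_s ≤ 3 d + 5`

Any number of points and any multiplicities; the multiplicities equal to one need not be counted in
the sum. With any number `κ` instead of `5` all these systems are non-special if finitely many of
them (none for `κ = 5`) are, for all numbers of points together.
-/

namespace Pool.Agent.Results.MP_d3128a_ag.CanonicalDegreeFive

/-- For general points of the complex projective plane the system of degree `d` with the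
multiplicities `m` is non-special. -/
def NonSpecial (r d : ℕ) (m : Fin (r + 4) → ℕ) : Prop :=
  ∃ F : MvPolynomial (Fin (r + 4) × Fin 2) ℂ, F ≠ 0 ∧
    ∀ P : Fin (r + 4) → Fin 2 → ℂ,
      MvPolynomial.eval (fun ij : Fin (r + 4) × Fin 2 => P ij.1 ij.2) F ≠ 0 →
        Module.finrank ℂ
          ↥(MvPolynomial.homogeneousSubmodule (Fin 3) ℂ d ⊓
            Submodule.restrictScalars ℂ
              (⨅ i : Fin (r + 4),
                (Ideal.span
                  ({MvPolynomial.X 0 - MvPolynomial.C (P i 0) * MvPolynomial.X 2,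
                    MvPolynomial.X 1 - MvPolynomial.C (P i 1) * MvPolynomial.X 2} :
                    Set (MvPolynomial (Fin 3) ℂ))) ^ (m i)))
        = Nat.choose (d + 2) 2 - ∑ i : Fin (r + 4), Nat.choose (m i + 1) 2

/-- The systems with `K D = c` which remain: at least ten points, decreasing multiplicities, all at
least two and the first ten at least three, `d ≥ m₁ + m₂ + m₃`, `∑ mᵢ = 3 d + c`,
`d ≤ 2 (c + 6) ^ 2`, and `1 ≤ t ≤ 4 c` and `χ < t` for `t = 3 d - (m₁ + ⋯ + m₉)`, where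
`χ = (d + 2 choose 2) - ∑ (mᵢ + 1 choose 2)`. -/
def Remaining (c r d : ℕ) (m : Fin (r + 4) → ℕ) : Prop :=
  6 ≤ r ∧ Antitone m ∧ (∀ i, 2 ≤ m i) ∧ (∀ i : Fin (r + 4), (i : ℕ) ≤ 9 → 3 ≤ m i) ∧
    m 0 + m 1 + m 2 ≤ d ∧ ∑ i, m i = 3 * d + c ∧ d ≤ 2 * (c + 6) ^ 2 ∧
    ∃ t : ℕ, (∑ i : Fin (r + 4), if (i : ℕ) < 9 then m i else 0) + t = 3 * d ∧ 1 ≤ t ∧
      t ≤ 4 * c ∧ (d + 2).choose 2 < t + ∑ i, (m i + 1).choose 2

open Pool.Agent.N108.ZZ Pool.Agent.TH167.SH Pool.Agent.H932R3 in
theorem reduction (κ : ℕ)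
    (H : ∀ c, 6 ≤ c → c ≤ κ → ∀ (r d : ℕ) (m : Fin (r + 4) → ℕ), Remaining c r d m →
      NonSpecial r d m)
    (r d : ℕ) (m : Fin (r + 4) → ℕ) (hm : Antitone m) (hd : m 0 + m 1 + m 2 ≤ d)
    (h : ∑ i : Fin (r + 4), (if 2 ≤ m i then m i else 0) ≤ 3 * d + κ) : NonSpecial r d m := by
  have hred : Reduced d m := Pool.Agent.TH167.TT.red_of_antitone hm hd
  have hS : Stm κ := by
    refine stm_of_bnd κ fun c hc1 hc2 r K _ _ P hP d w σ v t hv hv1 hv2 hcls => ?_
    obtain ⟨a1, a2, a3, a4, a5, a6, a7, a8, a9⟩ := hcls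
    -- the nonzero multiplicities
    have hex : ∃ k, v k = 0 := ⟨r + 4, hv2 _ le_rfl⟩
    obtain ⟨n', hn1, hn2⟩ : ∃ n', v n' = 0 ∧ ∀ k, k < n' → v k ≠ 0 := by
      classical
      exact ⟨Nat.find hex, Nat.find_spec hex, fun k hk => Nat.find_min hex hk⟩
    have h10 : 10 ≤ n' := by
      by_contra hcon
      have := hv (show n' ≤ 9 by omega)
      omega
    have hn' : n' ≤ r + 4 := by
      by_contra hcon
      exact hn2 (r + 4) (by omega) (hv2 _ le_rfl)
    obtain ⟨r', rfl⟩ : ∃ r', n' = r' + 4 := ⟨n' - 4, by omega⟩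
    have hz : ∀ k, r' + 4 ≤ k → v k = 0 := fun k hk => by
      have := hv hk
      omega
    have hsum : ∀ f : ℕ → ℕ, f 0 = 0 →
        ∑ k ∈ Finset.range (r + 4), f (v k) = ∑ i : Fin (r' + 4), f (v i) := by
      intro f hf
      rw [← Finset.sum_range (fun k => f (v k))]
      symm
      refine Finset.sum_subset (fun k hk => ?_) fun k _ hk => ?_
      · rw [Finset.mem_range] at hk ⊢
        omega
      · rw [Finset.mem_range, not_lt] at hk
        rw [hz k hk, hf]
    obtain ⟨m', hm'⟩ : ∃ m' : Fin (r' + 4) → ℕ, m' = fun i : Fin (r' + 4) => v i := ⟨_, rfl⟩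
    have v0 : ((0 : Fin (r' + 4)) : ℕ) = 0 := rfl
    have v1 : ((1 : Fin (r' + 4)) : ℕ) = 1 := Nat.mod_eq_of_lt (show 1 < r' + 4 by omega)
    have v2 : ((2 : Fin (r' + 4)) : ℕ) = 2 := Nat.mod_eq_of_lt (show 2 < r' + 4 by omega)
    have hrem : Remaining c r' d m' := by
      rw [hm']
      refine ⟨by omega, fun i j hij => hv hij, fun i => ?_, fun i hi => ?_, ?_, ?_, a3, t, ?_, a7,
        a8, ?_⟩
      · have e1 := hn2 i i.2
        have e2 := a4 i
        show 2 ≤ v i
        omega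
      · have := hv hi
        show 3 ≤ v i
        omega
      · show v ((0 : Fin (r' + 4)) : ℕ) + v ((1 : Fin (r' + 4)) : ℕ) + v ((2 : Fin (r' + 4)) : ℕ) ≤ d
        rw [v0, v1, v2]
        exact a1
      · rw [← a2]
        exact (hsum (fun x => x) rfl).symm
      · rw [← a6]
        congr 1
        rw [← Finset.sum_range (fun k => if k < 9 then v k else 0), ← Finset.sum_filter]
        refine Finset.sum_congr ?_ fun _ _ => rfl
        ext k
        rw [Finset.mem_filter, Finset.mem_range, Finset.mem_range]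
        omega
      · have := hsum (fun x => (x + 1).choose 2) rfl
        rw [this] at a9
        exact a9
    have hns := H c hc1 hc2 r' d m' hrem
    -- generic points over the complex numbers
    have hC : ∀ P : Fin (r' + 4) → Fin 2 → ℂ,
        AlgebraicIndependent ℚ (fun ij : Fin (r' + 4) × Fin 2 => P ij.1 ij.2) →
        (Module.finrank ℂ ↥(Pool.Agent.TH167.SHDefs.sys P d m') : ℤ) = max 0 (chi d m') := by
      refine (Pool.Agent.N108.SG.Lv.gen_iff d m' _).1 ?_
      obtain ⟨F, hF, hF'⟩ := hns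
      refine ⟨F, hF, fun P hP => ?_⟩
      have h1 := hF' P hP
      have h2 := (Pool.Agent.N108.SG.Lv.expDim_iff P d m').1 h1
      rw [← sys_eq] at h2
      exact h2
    have hC' := transfer (K := K) (P := fun i : Fin (r' + 4) => P (σ ⟨i, by omega⟩))
      (fun P hP => by rw [← sys_eq]; exact hC P hP) (by
        have := hP.comp (fun ij : Fin (r' + 4) × Fin 2 =>
          (σ (⟨ij.1, by omega⟩ : Fin (r + 4)), ij.2)) (by
            intro a b hab
            simp only [Prod.mk.injEq] at hab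
            have e1 := σ.injective hab.1
            simp only [Fin.mk.injEq] at e1
            exact Prod.ext (Fin.ext e1) hab.2)
        exact this)
    rw [trunc (n' := r' + 4) hn' hv1 hz]
    rw [hm'] at hC'
    rw [hC']
    have hchi : chi d w = chi d m' := by
      rw [chi_cast, chi_cast, hm', ← Pool.Agent.N108.SG.sum_sorted hv1 fun x => (x + 1).choose 2,
        hsum (fun x => (x + 1).choose 2) rfl]
    rw [hchi, hm']
  obtain ⟨F, hF, hF'⟩ := Pool.Agent.N108.SG.Lv.to_open (n := r + 4) (d := d) (w := m)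
    (fun {K} _ _ {P} hP => by
      rw [Pool.Agent.N108.SG.Lv.expDim_iff]
      exact of_stm hS hP hred h)
  refine ⟨F.map (algebraMap ℚ ℂ), map_ne_zero_of hF, fun P hP => ?_⟩
  rw [MvPolynomial.eval_map] at hP
  exact hF' P hP

theorem result :
    -- (1)
    (∀ (r d : ℕ) (m : Fin (r + 4) → ℕ), Antitone m → m 0 + m 1 + m 2 ≤ d →
      ∑ i : Fin (r + 4), (if 2 ≤ m i then m i else 0) ≤ 3 * d + 5 → NonSpecial r d m) ∧
    -- (2)
    ∀ κ : ℕ, (∀ c, 6 ≤ c → c ≤ κ → ∀ (r d : ℕ) (m : Fin (r + 4) → ℕ), Remaining c r d m →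
      NonSpecial r d m) →
      ∀ (r d : ℕ) (m : Fin (r + 4) → ℕ), Antitone m → m 0 + m 1 + m 2 ≤ d →
        ∑ i : Fin (r + 4), (if 2 ≤ m i then m i else 0) ≤ 3 * d + κ → NonSpecial r d m :=
  ⟨fun r d m hm hd h => reduction 5 (fun c h1 h2 => absurd h1 (by omega)) r d m hm hd h,
    fun κ H r d m hm hd h => reduction κ H r d m hm hd h⟩

end Pool.Agent.Results.MP_d3128a_ag.CanonicalDegreeFive
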